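import Mathlib
import Pool.Agent.W168.Lin2

set_option autoImplicit false

/-!
# The linear fixed point construction with an arbitrary source and both signs

Generalisation of `Pool.Agent.W168.Lin` (there the source is `cos (c x) - 1` and the sign is `+1`).
-/

open Finset MeasureTheory Filter

namespace Pool.Agent.Y532.SC

open Pool.Agent.H469R10.HO
open Pool.Agent.W168.Lin (nn om om_near nn_zero om_zero nn_inj QQ_id PP_abs_le summable_abs)
open Pool.Agent.H54R3.T469O (PP_add PP_sub PP_const_mul PP_cos PP_hasSum DD_abs chi_zero chi_one)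

variable {c lam : ℝ}

/-- the column of the node `i`, sign `σ` -/
noncomputable def TL (σ c lam : ℝ) (m i j : ℕ) : ℝ :=
  - PP (fun t => Real.cos (om c lam i * t) - Real.cos (xx i * t)) j +
    σ * PP (DD m (fun y => Real.cos (om c lam i * y))) j

/-- the source, sign `σ` -/
noncomputable def src (σ : ℝ) (f : ℝ → ℝ) (m j : ℕ) : ℝ := - PP f j + σ * PP (DD m f) j

lemma fin_bound {σ : ℝ} (hσ : σ = 1 ∨ σ = -1) {m : ℕ} {κ : ℝ} (hm : 1 ≤ m) (hc : 0 < c) (hc1 : c ≤ 1 / 4)
    (hlam : 1 ≤ lam) (hM : MBound m κ) (S : Finset ℕ) (β : ℕ → ℝ) (J : ℕ) :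
    ∑ j ∈ range J, (1 + (j : ℝ)) ^ 2 * (∑ i ∈ S, β i * TL σ c lam m i j) ^ 2 ≤
      (800 * c ^ 2 + 2 * κ) * ∑ i ∈ S, (1 + (i : ℝ)) ^ 2 * β i ^ 2 := by
  have hσ2 : σ ^ 2 = 1 := by rcases hσ with h | h <;> rw [h] <;> norm_num
  have hnear : ∀ i ∈ S, |om c lam i - xx (id i)| ≤ c := fun i _ => om_near hc hlam i
  have hnear1 : ∀ i ∈ S, |om c lam i - xx (id i)| ≤ 1 := fun i hi => (hnear i hi).trans (by linarith)
  have e1 : ∀ j, ∑ i ∈ S, β i * TL σ c lam m i j =
      - ∑ i ∈ S, β i * PP (fun t => Real.cos (om c lam i * t) - Real.cos (xx (id i) * t)) j +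
      σ * PP (DD m (fun y => ∑ i ∈ S, β i * Real.cos (om c lam i * y))) j := by
    intro j
    rw [← PP_DD_sum hm, mul_sum, ← sum_neg_distrib, ← sum_add_distrib]
    apply sum_congr rfl
    intro i _
    unfold TL
    simp only [id]
    ring
  have hMS := (hM S id (om c lam) β hnear1).2 J
  have c2 := colR_two S id (om c lam) β hc.le (by linarith) hnear (range J)
  rw [QQ_id] at hMS c2
  simp_rw [e1]
  calc ∑ j ∈ range J, (1 + (j : ℝ)) ^ 2 * (- ∑ i ∈ S, β i * PP (fun t => Real.cos (om c lam i * t) - Real.cos (xx (id i) * t)) j +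
      σ * PP (DD m (fun y => ∑ i ∈ S, β i * Real.cos (om c lam i * y))) j) ^ 2
        ≤ ∑ j ∈ range J, (2 * ((1 + (j : ℝ)) ^ 2 * (∑ i ∈ S, β i * PP (fun t => Real.cos (om c lam i * t) - Real.cos (xx (id i) * t)) j) ^ 2) +
          2 * ((1 + (j : ℝ)) ^ 2 * (PP (DD m (fun y => ∑ i ∈ S, β i * Real.cos (om c lam i * y))) j) ^ 2)) := by
          apply sum_le_sum; intro j _
          have h0 : 0 ≤ (1 + (j : ℝ)) ^ 2 := by positivity
          set A : ℝ := ∑ i ∈ S, β i * PP (fun t => Real.cos (om c lam i * t) - Real.cos (xx (id i) * t)) j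
          set B : ℝ := PP (DD m (fun y => ∑ i ∈ S, β i * Real.cos (om c lam i * y))) j
          have h1 := mul_nonneg h0 (sq_nonneg (A + σ * B))
          have e2 : (1 + (j : ℝ)) ^ 2 * (-A + σ * B) ^ 2 + (1 + (j : ℝ)) ^ 2 * (A + σ * B) ^ 2 =
              2 * ((1 + (j : ℝ)) ^ 2 * A ^ 2) + 2 * ((1 + (j : ℝ)) ^ 2 * (σ ^ 2 * B ^ 2)) := by ring
          rw [hσ2, one_mul] at e2
          linarith
      _ ≤ 2 * (400 * c ^ 2 * ∑ i ∈ S, (1 + (i : ℝ)) ^ 2 * β i ^ 2) + 2 * (κ * ∑ i ∈ S, (1 + (i : ℝ)) ^ 2 * β i ^ 2) := by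
          rw [sum_add_distrib, ← mul_sum, ← mul_sum]
          linarith
      _ = _ := by ring

lemma TL_abs_le {σ : ℝ} (hσ : σ = 1 ∨ σ = -1) {m : ℕ} (hm : 1 ≤ m) (i j : ℕ) :
    |TL σ c lam m i j| ≤ 4 + 2 * 2 ^ (2 * m) := by
  have hσ1 : |σ| = 1 := by rcases hσ with h | h <;> rw [h] <;> norm_num
  unfold TL
  refine (abs_add_le _ _).trans ?_
  rw [abs_neg, abs_mul, hσ1, one_mul]
  have h1 : |PP (fun t => Real.cos (om c lam i * t) - Real.cos (xx i * t)) j| ≤ 2 * 2 := by
    apply PP_abs_le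
    intro x _
    refine (abs_sub _ _).trans ?_
    have := Real.abs_cos_le_one (om c lam i * x)
    have := Real.abs_cos_le_one (xx i * x)
    linarith
  have h2 : |PP (DD m (fun y => Real.cos (om c lam i * y))) j| ≤ 2 * 2 ^ (2 * m) := by
    apply PP_abs_le
    intro x hx
    have h3 := DD_abs (m := m) (f := fun y => Real.cos (om c lam i * y)) (C := 1)
      (fun y => Real.abs_cos_le_one _) x
    have h4 : x ^ (2 * m) ≤ 2 ^ (2 * m) := pow_le_pow_left₀ hx.1 hx.2 _
    linarith
  linarith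

lemma summable_TL {σ : ℝ} (hσ : σ = 1 ∨ σ = -1) {m : ℕ} (hm : 1 ≤ m) {d : ℕ → ℝ}
    (hd : Summable (fun i => |d i|)) (j : ℕ) : Summable (fun i => d i * TL σ c lam m i j) := by
  refine Summable.of_norm_bounded (hd.mul_right (4 + 2 * 2 ^ (2 * m))) fun i => ?_
  rw [Real.norm_eq_abs, abs_mul]
  exact mul_le_mul_of_nonneg_left (TL_abs_le hσ hm i j) (abs_nonneg _)

lemma inf_bound {σ : ℝ} (hσ : σ = 1 ∨ σ = -1) {m : ℕ} {κ : ℝ} (hm : 1 ≤ m) (hc : 0 < c) (hc1 : c ≤ 1 / 4)
    (hlam : 1 ≤ lam) (hκ : 0 ≤ κ) (hM : MBound m κ) {d : ℕ → ℝ} {D : ℝ}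
    (hd : ∀ J : ℕ, ∑ j ∈ range J, (1 + (j : ℝ)) ^ 2 * d j ^ 2 ≤ D) (J : ℕ) :
    ∑ j ∈ range J, (1 + (j : ℝ)) ^ 2 * (∑' i, d i * TL σ c lam m i j) ^ 2 ≤
      (800 * c ^ 2 + 2 * κ) * D := by
  have hs := fun j => (summable_TL (c := c) (lam := lam) hσ hm (summable_abs hd) j).hasSum.tendsto_sum_nat
  have ht : Tendsto (fun N => ∑ j ∈ range J, (1 + (j : ℝ)) ^ 2 * (∑ i ∈ range N, d i * TL σ c lam m i j) ^ 2) atTop
      (nhds (∑ j ∈ range J, (1 + (j : ℝ)) ^ 2 * (∑' i, d i * TL σ c lam m i j) ^ 2)) :=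
    tendsto_finsetSum _ fun j _ => ((hs j).pow 2).const_mul _
  refine le_of_tendsto ht (Eventually.of_forall fun N => ?_)
  refine (fin_bound hσ hm hc hc1 hlam hM (range N) d J).trans ?_
  exact mul_le_mul_of_nonneg_left (hd N) (by positivity)

/-- the source has finite norm -/
lemma src_bound {σ : ℝ} (hσ : σ = 1 ∨ σ = -1) {m : ℕ} (hm : 2 ≤ m) {f f' : ℝ → ℝ}
    (hf : ∀ x, HasDerivAt f (f' x) x) (hfc' : Continuous f') {M M' : ℝ} (hM : ∀ x, |f x| ≤ M)
    (hM' : ∀ x, |f' x| ≤ M') : ∃ R : ℝ, ∀ J : ℕ,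
    ∑ j ∈ range J, (1 + (j : ℝ)) ^ 2 * (src σ f m j) ^ 2 ≤ R := by
  have hfc : Continuous f := continuous_iff_continuousAt.2 fun x => (hf x).continuousAt
  have hD := Pool.Agent.H5R3.T469N.hasDeriv_DD m hm hf hM
  have hDc := Pool.Agent.H5R3.T469N.cont_DD' m hm hfc hfc' hM hM'
  have hDc0 := Pool.Agent.H5R3.T469N.cont_DD m hm hfc hM
  have hd : ∀ x, HasDerivAt (fun x => σ * DD m f x - f x)
      (σ * Pool.Agent.H5R3.T469N.DD' m f f' x - f' x) x :=
    fun x => ((hD x).const_mul σ).sub (hf x)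
  have hcd : Continuous (fun x => σ * Pool.Agent.H5R3.T469N.DD' m f f' x - f' x) :=
    (continuous_const.mul hDc).sub hfc'
  refine ⟨2 * (∫ t in (0:ℝ)..2, (σ * DD m f t - f t) ^ 2) +
    ∫ t in (0:ℝ)..2, (σ * Pool.Agent.H5R3.T469N.DD' m f f' t - f' t) ^ 2, fun J => ?_⟩
  have h := Pool.Agent.H469R10.HO.weighted_bessel hd hcd (range J)
  have e : ∀ j, PP (fun x => σ * DD m f x - f x) j = src σ f m j := by
    intro j
    have h1 : Continuous (fun x => σ * DD m f x) := continuous_const.mul hDc0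
    have h2 := PP_sub h1 hfc j
    rw [h2, PP_const_mul]
    unfold src
    ring
  simp_rw [e] at h
  exact h

theorem fixed {σ : ℝ} (hσ : σ = 1 ∨ σ = -1) {m : ℕ} {κ : ℝ} (hm : 2 ≤ m) (hc : 0 < c) (hc1 : c ≤ 1 / 4)
    (hlam : 1 ≤ lam) (hκ : 0 ≤ κ)
    (hM : MBound m κ) (hK : 800 * c ^ 2 + 2 * κ ≤ 1 / 4) {f f' : ℝ → ℝ}
    (hf : ∀ x, HasDerivAt f (f' x) x) (hfc' : Continuous f') {B B' : ℝ} (hB : ∀ x, |f x| ≤ B)
    (hB' : ∀ x, |f' x| ≤ B') :
    ∃ b : ℕ → ℝ, Summable (fun i => |b i|) ∧ ∀ j, b j = src σ f m j + ∑' i, b i * TL σ c lam m i j := by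
  obtain ⟨R, hR⟩ := src_bound hσ hm hf hfc' hB hB'
  have hR0 : 0 ≤ R := by simpa using hR 0
  have hm1 : 1 ≤ m := by omega
  set ρ : ℝ := 2 * (R + 1) with hρ
  have hρ0 : 0 < ρ := by positivity
  obtain ⟨b, hb, hfix⟩ := Pool.Agent.H180R3.Q469.taskQ (fun j => (1 + (j : ℝ)) ^ 2) (fun j => by positivity)
    (fun b j => src σ f m j + ∑' i, b i * TL σ c lam m i j) ρ (1 / 2) hρ0 (by norm_num) (by norm_num)
    (fun J => by
      have : ∀ j, src σ f m j + ∑' i : ℕ, (0:ℝ) * TL σ c lam m i j = src σ f m j := by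
        intro j; simp
      simp_rw [this]
      refine (hR J).trans ?_
      rw [hρ]
      nlinarith)
    (fun b b' hb hb' D hD hd J => by
      have hsb := summable_abs hb
      have hsb' := summable_abs hb'
      have e : ∀ j, (src σ f m j + ∑' i, b i * TL σ c lam m i j) - (src σ f m j + ∑' i, b' i * TL σ c lam m i j) =
          ∑' i, (b i - b' i) * TL σ c lam m i j := by
        intro j
        have h1 := (summable_TL (c := c) (lam := lam) hσ hm1 hsb j).tsum_sub
          (summable_TL (c := c) (lam := lam) hσ hm1 hsb' j)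
        have h2 : ∀ i, b i * TL σ c lam m i j - b' i * TL σ c lam m i j = (b i - b' i) * TL σ c lam m i j :=
          fun i => by ring
        simp_rw [h2] at h1
        rw [h1]; ring
      simp_rw [e]
      refine (inf_bound hσ hm1 hc hc1 hlam hκ hM hd J).trans ?_
      have hD2 : 0 ≤ D ^ 2 := sq_nonneg D
      nlinarith)
  exact ⟨b, summable_abs hb, hfix⟩

theorem relation {σ : ℝ} (hσ : σ = 1 ∨ σ = -1) {m : ℕ} (hm : 2 ≤ m) {f : ℝ → ℝ} (hs0c : Continuous f)
    {B : ℝ} (hs0B : ∀ x, |f x| ≤ B) {b : ℕ → ℝ} (hb : Summable fun i => |b i|)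
    (hfix : ∀ j, b j = src σ f m j + ∑' i, b i * TL σ c lam m i j) {x : ℝ} (hx : 0 < x) :
    f x + ∑' i, b i * Real.cos (om c lam i * x) =
      σ * x ^ (2 * m) * (f x⁻¹ + ∑' i, b i * Real.cos (om c lam i * x⁻¹)) := by
  have hσ2 : σ * σ = 1 := by rcases hσ with h | h <;> rw [h] <;> norm_num
  have hm1 : 1 ≤ m := by omega
  let G : ℝ → ℝ := fun x => ∑' n, b n * Real.cos (om c lam n * x)
  have hGb : ∀ n x, ‖b n * Real.cos (om c lam n * x)‖ ≤ |b n| := by
    intro n x
    rw [Real.norm_eq_abs, abs_mul]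
    calc |b n| * |Real.cos (om c lam n * x)| ≤ |b n| * 1 := by
          gcongr
          exact Real.abs_cos_le_one _
      _ = |b n| := mul_one _
  have hGs : ∀ x, HasSum (fun n => b n * Real.cos (om c lam n * x)) (G x) := fun x =>
    (Summable.of_norm_bounded hb (fun n => hGb n x)).hasSum
  have hGc : Continuous G := continuous_tsum (fun n => by fun_prop) hb hGb
  have hGB : ∀ x, |G x| ≤ ∑' n, |b n| := fun x => tsum_of_norm_bounded hb.hasSum (fun n => hGb n x)
  let h : ℝ → ℝ := fun x => f x + G x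
  have hhc : Continuous h := hs0c.add hGc
  have hhB : ∀ x, |h x| ≤ B + ∑' n, |b n| := fun x =>
    (abs_add_le _ _).trans (add_le_add (hs0B x) (hGB x))
  have hP : ∀ j, PP h j = σ * PP (DD m h) j := by
    intro j
    have H1 : HasSum (fun n => b n * PP (fun t => Real.cos (om c lam n * t)) j) (PP G j) := by
      have h1 := PP_hasSum (F := fun n x => b n * Real.cos (om c lam n * x)) (a := fun n => |b n|)
        (fun n => by fun_prop) (fun n x _ => hGb n x) hb j (f := G) (fun x _ => hGs x)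
      simpa only [PP_const_mul] using h1
    have hcosB : ∀ n x, |Real.cos (om c lam n * x)| ≤ 1 := fun n x => Real.abs_cos_le_one _
    have hDc : ∀ n, Continuous (DD m (fun y => Real.cos (om c lam n * y))) := fun n =>
      DD_cont hm1 (by fun_prop) (hcosB n)
    have H2 : HasSum (fun n => b n * PP (DD m (fun y => Real.cos (om c lam n * y))) j) (PP (DD m G) j) := by
      have h1 := PP_hasSum (F := fun n x => b n * DD m (fun y => Real.cos (om c lam n * y)) x)
        (a := fun n => |b n| * 2 ^ (2 * m))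
        (fun n => continuous_const.mul (hDc n)) (fun n x hx => by
          rw [abs_mul]
          have h2 := DD_abs (m := m) (hcosB n) x
          have h3 : x ^ (2 * m) ≤ 2 ^ (2 * m) := pow_le_pow_left₀ hx.1 hx.2 _
          have h4 : |DD m (fun y => Real.cos (om c lam n * y)) x| ≤ 2 ^ (2 * m) := by linarith
          gcongr) (hb.mul_right _) j (f := DD m G) (fun x _ => by
          have h2 := (hGs x⁻¹).mul_left (chi x * x ^ (2 * m))
          have h3 : (fun n => b n * DD m (fun y => Real.cos (om c lam n * y)) x) =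
              fun n => chi x * x ^ (2 * m) * (b n * Real.cos (om c lam n * x⁻¹)) := by
            funext n
            unfold DD
            ring
          rw [h3]
          exact h2)
      simpa only [PP_const_mul] using h1
    have H3 : HasSum (fun n => if n = j then b j else 0) (b j) := hasSum_ite_eq j (b j)
    have H4 : HasSum (fun n => b n * TL σ c lam m n j) (- PP G j + σ * PP (DD m G) j + b j) := by
      have h1 := ((H1.neg).add (H2.mul_left σ)).add H3
      have h2 : (fun n => b n * TL σ c lam m n j) = fun n =>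
          -(b n * PP (fun t => Real.cos (om c lam n * t)) j) +
            σ * (b n * PP (DD m (fun y => Real.cos (om c lam n * y))) j) +
            (if n = j then b j else 0) := by
        funext n
        unfold TL
        rw [PP_sub (by fun_prop) (by fun_prop), PP_cos]
        split_ifs with h0
        · subst h0; ring
        · ring
      rw [h2]
      exact h1
    have h5 := hfix j
    rw [H4.tsum_eq] at h5
    unfold src at h5
    have h6 : PP h j = PP f j + PP G j := PP_add hs0c hGc j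
    have h7 : PP (DD m h) j = PP (DD m f) j + PP (DD m G) j := by
      rw [← PP_add (DD_cont hm1 hs0c hs0B) (DD_cont hm1 hGc hGB)]
      congr 1
      funext x
      simp only [DD, h]
      ring
    rw [h7, h6]
    linarith
  have hDhc : Continuous (DD m h) := DD_cont hm1 hhc hhB
  have hL := Pool.Agent.H82R3.T469L.taskL (fun x => h x - σ * DD m h x)
    (hhc.sub (continuous_const.mul hDhc)) (fun j => by
    have h1 : PP (fun x => h x - σ * DD m h x) j = 0 := by
      have h2 : Continuous (fun x => σ * DD m h x) := continuous_const.mul hDhc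
      have h3 := PP_sub hhc h2 j
      rw [h3, PP_const_mul, hP j, sub_self]
    unfold PP at h1
    have h2 : ww j ≠ 0 := by have := ww_ge j; positivity
    exact (div_eq_zero_iff.mp h1).resolve_right h2)
  have hL' : ∀ x ∈ Set.Icc (0:ℝ) 2, h x = σ * (chi x * x ^ (2 * m) * h x⁻¹) := fun x hx => by
    have := hL x hx
    simp only [DD] at this
    linarith
  have hz1 : ∀ x ∈ Set.Icc (3 / 4 : ℝ) 2, h x = 0 := by
    intro x hx
    rw [hL' x ⟨by linarith [hx.1], hx.2⟩, chi_zero hx.1]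
    ring
  have hz : ∀ x ∈ Set.Icc (1 / 2 : ℝ) 2, h x = 0 := by
    intro x hx
    rcases le_total (3 / 4) x with h1 | h1
    · exact hz1 x ⟨h1, hx.2⟩
    · have hx0 : 0 < x := by linarith [hx.1]
      rw [hL' x ⟨by linarith [hx.1], hx.2⟩, hz1 x⁻¹ ?_, mul_zero, mul_zero]
      constructor
      · rw [le_inv_comm₀ (by norm_num) hx0]; linarith
      · rw [inv_le_comm₀ hx0 (by norm_num)]; linarith [hx.1]
  have hinv : ∀ x : ℝ, 0 < x → x ≤ 1 / 2 → h x = σ * x ^ (2 * m) * h x⁻¹ := by
    intro x hx0 hx1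
    rw [hL' x ⟨hx0.le, by linarith⟩, chi_one hx1, one_mul, mul_assoc]
  change h x = σ * x ^ (2 * m) * h x⁻¹
  rcases le_total x (1 / 2) with h1 | h1
  · exact hinv x hx h1
  rcases le_total x 2 with h2 | h2
  · rw [hz x ⟨h1, h2⟩, hz x⁻¹ ?_, mul_zero]
    constructor
    · rw [le_inv_comm₀ (by norm_num) hx]; linarith
    · rw [inv_le_comm₀ hx (by norm_num)]; linarith
  · have h3 := hinv x⁻¹ (inv_pos.mpr hx) (by rw [inv_le_comm₀ hx (by norm_num)]; linarith)
    rw [inv_inv] at h3
    have h4 : x ^ (2 * m) * x⁻¹ ^ (2 * m) = 1 := by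
      rw [← mul_pow, mul_inv_cancel₀ hx.ne', one_pow]
    rw [h3]
    linear_combination (-h x) * (hσ2) + (-(σ * σ) * h x) * h4

/-- coefficients over the integers -/
noncomputable def al (c lam : ℝ) (b v : ℕ → ℝ) (n : ℕ) : ℝ :=
  Function.extend (nn c lam) b (fun _ => 0) n + v n

lemma al_off {b v : ℕ → ℝ} {n : ℕ} (hn : ∀ j, nn c lam j ≠ n) : al c lam b v n = v n := by
  unfold al
  rw [Function.extend_apply' _ _ _ (by rintro ⟨i, hi⟩; exact hn i hi), zero_add]

lemma hasSum_al (hc : 0 < c) (hc1 : c ≤ 1 / 4) (hlam : 1 ≤ lam) {b v : ℕ → ℝ} (hb : Summable fun i => |b i|)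
    (hv : Summable fun n => |v n|)
    (x : ℝ) : HasSum (fun n => al c lam b v n * Real.cos (uu c lam n * x))
      ((∑' n, v n * Real.cos (uu c lam n * x)) + ∑' i, b i * Real.cos (om c lam i * x)) := by
  have hinj := nn_inj hc hc1 hlam
  have hs : Summable (fun n => b n * Real.cos (om c lam n * x)) := by
    refine Summable.of_norm_bounded hb (fun n => ?_)
    rw [Real.norm_eq_abs, abs_mul]
    calc |b n| * |Real.cos (om c lam n * x)| ≤ |b n| * 1 := by
          gcongr
          exact Real.abs_cos_le_one _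
      _ = |b n| := mul_one _
  have hs2 : Summable (fun n => v n * Real.cos (uu c lam n * x)) := by
    refine Summable.of_norm_bounded hv (fun n => ?_)
    rw [Real.norm_eq_abs, abs_mul]
    calc |v n| * |Real.cos (uu c lam n * x)| ≤ |v n| * 1 := by
          gcongr
          exact Real.abs_cos_le_one _
      _ = |v n| := mul_one _
  have h1 : HasSum (fun n => Function.extend (nn c lam) b (fun _ => 0) n * Real.cos (uu c lam n * x))
      (∑' i, b i * Real.cos (om c lam i * x)) := by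
    rw [← hinj.hasSum_iff]
    · have e : ((fun n => Function.extend (nn c lam) b (fun _ => 0) n * Real.cos (uu c lam n * x)) ∘ nn c lam) =
          fun n => b n * Real.cos (om c lam n * x) := by
        funext i
        simp only [Function.comp, hinj.extend_apply]
        rfl
      rw [e]
      exact hs.hasSum
    · intro n hn
      rw [Function.extend_apply' _ _ _ (fun h => hn h), zero_mul]
  have h2 := h1.add hs2.hasSum
  have e2 : (fun n => al c lam b v n * Real.cos (uu c lam n * x)) =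
      fun n => Function.extend (nn c lam) b (fun _ => 0) n * Real.cos (uu c lam n * x) +
      v n * Real.cos (uu c lam n * x) := by
    funext n
    unfold al
    ring
  rw [e2]
  convert h2 using 1
  ring

lemma summable_al (hc : 0 < c) (hc1 : c ≤ 1 / 4) (hlam : 1 ≤ lam) {b v : ℕ → ℝ}
    (hb : Summable fun i => |b i|) (hv : Summable fun n => |v n|) :
    Summable (fun n => |al c lam b v n|) := by
  have hinj := nn_inj hc hc1 hlam
  have h1 : Summable (fun n => |Function.extend (nn c lam) b (fun _ => 0) n|) := by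
    rw [← hinj.summable_iff]
    · refine hb.congr fun i => ?_
      simp only [Function.comp, hinj.extend_apply]
    · intro n hn
      rw [Function.extend_apply' _ _ _ (fun h => hn h), abs_zero]
  refine Summable.of_nonneg_of_le (fun _ => abs_nonneg _) (fun n => ?_) (h1.add hv)
  unfold al
  exact abs_add_le _ _

/-- For all large `m`, all `lam ≥ 1`, both signs and ALL summable `v`, the boundary relation of weight
`-2m` with frequencies `c n^{1/lam}` has a solution which equals `v` off the nodes. -/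
theorem exists_relation : ∃ m₀ : ℕ, ∀ m : ℕ, m₀ ≤ m → ∀ lam : ℝ, 1 ≤ lam → ∀ c : ℝ, 0 < c → c ≤ 1 / 100 →
    ∀ σ : ℝ, (σ = 1 ∨ σ = -1) → ∀ v : ℕ → ℝ, Summable (fun n => |v n| * (1 + uu c lam n)) →
    ∃ α : ℕ → ℝ, Summable (fun n => |α n|) ∧ (∀ n, (∀ j, nn c lam j ≠ n) → α n = v n) ∧
      ∀ x : ℝ, 0 < x → ∑' n, α n * Real.cos (uu c lam n * x) =
        σ * x ^ (2 * m) * ∑' n, α n * Real.cos (uu c lam n / x) := by
  obtain ⟨m₀, hm₀⟩ := Pool.Agent.H99R3.M469.taskM (1 / 20) (by norm_num)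
  refine ⟨max m₀ 2, fun m hm lam hlam c hc hc1 σ hσ v hv => ?_⟩
  have hm2 : 2 ≤ m := le_trans (le_max_right _ _) hm
  have hM : MBound m (1 / 20) := hm₀ m (le_trans (le_max_left _ _) hm)
  have hc4 : c ≤ 1 / 4 := by linarith
  have hu0 : ∀ n, 0 ≤ uu c lam n := fun n => by unfold uu; positivity
  have hv1 : Summable (fun n => |v n|) := by
    refine Summable.of_nonneg_of_le (fun _ => abs_nonneg _) (fun n => ?_) hv
    have := hu0 n
    have := abs_nonneg (v n)
    nlinarith
  have hv2 : Summable (fun n => |v n| * uu c lam n) := by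
    refine Summable.of_nonneg_of_le (fun n => mul_nonneg (abs_nonneg _) (hu0 n)) (fun n => ?_) hv
    have := hu0 n
    have := abs_nonneg (v n)
    nlinarith
  -- the source function
  obtain ⟨f, hfd⟩ : ∃ f : ℝ → ℝ, f = fun x => ∑' n, v n * Real.cos (uu c lam n * x) := ⟨_, rfl⟩
  obtain ⟨f', hfd'⟩ : ∃ f' : ℝ → ℝ, f' = fun x => ∑' n, v n * (-(uu c lam n * Real.sin (uu c lam n * x))) := ⟨_, rfl⟩
  have hb1 : ∀ n x, ‖v n * Real.cos (uu c lam n * x)‖ ≤ |v n| := by
    intro n x
    rw [Real.norm_eq_abs, abs_mul]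
    calc |v n| * |Real.cos (uu c lam n * x)| ≤ |v n| * 1 := by
          gcongr
          exact Real.abs_cos_le_one _
      _ = |v n| := mul_one _
  have hb2 : ∀ n x, ‖v n * (-(uu c lam n * Real.sin (uu c lam n * x)))‖ ≤ |v n| * uu c lam n := by
    intro n x
    rw [Real.norm_eq_abs, abs_mul, abs_neg, abs_mul, abs_of_nonneg (hu0 n)]
    have h0 := hu0 n
    calc |v n| * (uu c lam n * |Real.sin (uu c lam n * x)|) ≤ |v n| * (uu c lam n * 1) := by
          gcongr
          exact Real.abs_sin_le_one _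
      _ = _ := by rw [mul_one]
  have hfB : ∀ x, |f x| ≤ ∑' n, |v n| := fun x => by
    rw [hfd]; exact tsum_of_norm_bounded hv1.hasSum (fun n => hb1 n x)
  have hfB' : ∀ x, |f' x| ≤ ∑' n, |v n| * uu c lam n := fun x => by
    rw [hfd']; exact tsum_of_norm_bounded hv2.hasSum (fun n => hb2 n x)
  have hfc' : Continuous f' := by
    rw [hfd']; exact continuous_tsum (fun n => by fun_prop) hv2 hb2
  have hfder : ∀ x, HasDerivAt f (f' x) x := by
    intro x
    rw [hfd, hfd']
    refine hasDerivAt_tsum (u := fun n => |v n| * uu c lam n) (g := fun n x => v n * Real.cos (uu c lam n * x))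
      (g' := fun n x => v n * (-(uu c lam n * Real.sin (uu c lam n * x)))) (y₀ := 0) hv2 ?_ hb2 ?_ x
    · intro n y
      have h1 := ((((hasDerivAt_id y).const_mul (uu c lam n)).cos).const_mul (v n))
      refine HasDerivAt.congr_deriv h1 ?_
      simp only [id, mul_one]
      ring
    · exact Summable.of_norm_bounded hv1 (fun n => hb1 n 0)
  have hfcont : Continuous f := continuous_iff_continuousAt.2 fun x => (hfder x).continuousAt
  obtain ⟨b, hb, hfix⟩ := fixed (c := c) (lam := lam) hσ hm2 hc hc4 hlam (by norm_num) hM (by nlinarith)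
    hfder hfc' hfB hfB'
  refine ⟨al c lam b v, summable_al hc hc4 hlam hb hv1, fun n hn => al_off hn, fun x hx => ?_⟩
  have h8 : ∀ n, uu c lam n / x = uu c lam n * x⁻¹ := fun n => div_eq_mul_inv _ _
  simp_rw [h8]
  rw [(hasSum_al hc hc4 hlam hb hv1 x).tsum_eq, (hasSum_al hc hc4 hlam hb hv1 x⁻¹).tsum_eq]
  have h9 := relation hσ hm2 hfcont hfB hb hfix hx
  rw [hfd] at h9
  exact h9

end Pool.Agent.Y532.SC
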