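import Mathlib
import Pool.Agent.Y532.SC.Lin
import Pool.Agent.W168.Wrap2

set_option autoImplicit false

/-!
# From the boundary relation to entire Dirichlet series with prescribed coefficients
-/

namespace Pool.Agent.Y532.SC

open Finset Pool.Agent.H469R10.HO Complex
open Pool.Agent.W168.Wrap (mu kap aa ff FF FF_diff FF_series FF_growth FF_completed FF_strip uu_pos uu_zero)
open Pool.Agent.W168.Lin (nn om om_near nn_zero)

theorem package {lam : ℝ} (hlam : 1 ≤ lam) {m : ℕ} (hm1 : 1 ≤ m) (hmlam : lam ≤ m) {c : ℝ} (hc : 0 < c)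
    {σ : ℝ} (hσ : σ = 1 ∨ σ = -1) {α : ℕ → ℝ} (hsum : Summable (fun n => |α n|))
    (hrel : ∀ x : ℝ, 0 < x → ∑' n, α n * Real.cos (uu c lam n * x) =
        σ * x ^ (2 * m) * ∑' n, α n * Real.cos (uu c lam n / x)) {ε : ℝ} (hε : ε = (-1) ^ (m + 1) * σ) :
    ∃ F : ℂ → ℂ, Differentiable ℂ F ∧
    (∀ s : ℂ, (2 * m + 2 + |mu lam m|) / lam < s.re →
      LSeriesSummable (fun n => ((aa lam m α n : ℝ) : ℂ)) s ∧ F s = LSeries (fun n => ((aa lam m α n : ℝ) : ℂ)) s) ∧
    (∀ σ₁ σ₂ : ℝ, ∃ M C : ℝ, ∀ s : ℂ, σ₁ ≤ s.re → s.re ≤ σ₂ → ‖F s‖ ≤ C * (1 + |s.im|) ^ M) ∧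
    (∀ s : ℂ, (∀ n : ℕ, (lam : ℂ) * s + mu lam m ≠ -(n : ℂ)) →
      (∀ n : ℕ, (lam : ℂ) * (1 - starRingEnd ℂ s) + mu lam m ≠ -(n : ℂ)) →
      F s * ((Real.exp (-(lam * Real.log c)) : ℝ) : ℂ) ^ s * Gamma ((lam : ℂ) * s + mu lam m) =
        ε * starRingEnd ℂ (F (1 - starRingEnd ℂ s) *
          ((Real.exp (-(lam * Real.log c)) : ℝ) : ℂ) ^ (1 - starRingEnd ℂ s) *
          Gamma ((lam : ℂ) * (1 - starRingEnd ℂ s) + mu lam m))) := by
  have hF := Pool.Agent.H144R3.T469F.taskF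
  have hG := Pool.Agent.H853R3.Bol.taskG
  have hl : 0 < lam := by linarith
  have hrel2 := hG m hm1 α (uu c lam) hsum (uu_zero hl) (fun n hn => uu_pos hc hn) σ hσ
    (fun x hx => hrel x hx)
  have hε1 : ε = 1 ∨ ε = -1 := by
    rcases neg_one_pow_eq_or ℝ (m + 1) with h | h <;> rcases hσ with h' | h' <;> rw [hε, h, h'] <;> norm_num
  have hεε : ε * ε = 1 := by
    rcases hε1 with h | h <;> rw [h] <;> norm_num
  have hm0 : (0 : ℝ) ≤ m := Nat.cast_nonneg m
  obtain ⟨Λ, hΛd, hΛfe, hΛc, hΛs, C, hΛg⟩ := hF c lam (2 * m + 2) hc hlam (by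
      have : (1 : ℝ) ≤ m := by exact_mod_cast hm1
      linarith)
    (fun n => α n * uu c lam n ^ (2 * m + 1))
    (by rw [uu_zero hl]; simp)
    (by
      refine Summable.of_nonneg_of_le (fun n => by
        apply mul_nonneg (abs_nonneg _)
        apply Real.rpow_nonneg
        rcases Nat.eq_zero_or_pos n with h | h
        · rw [h, uu_zero hl]
        · exact (uu_pos hc h).le) (fun n => ?_) hsum
      rcases Nat.eq_zero_or_pos n with h | h
      · subst h
        rw [uu_zero hl]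
        simp
      · have hu := uu_pos (lam := lam) hc h
        rw [abs_mul, abs_of_pos (pow_pos hu _), mul_assoc, ← Real.rpow_natCast,
          ← Real.rpow_add hu]
        have : ((2 * m + 1 : ℕ) : ℝ) + -((2 * (m : ℝ) + 2) - 1) = 0 := by push_cast; ring
        rw [this, Real.rpow_zero, mul_one])
    ε hε1
    (by
      intro t ht
      have h1 := hrel2 t ht
      rw [hε]
      have h2 : t ^ (2 * (m : ℝ) + 2) = t ^ (2 * m + 2) := by
        rw [← Real.rpow_natCast]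
        push_cast
        rfl
      rw [h2]
      exact h1)
  obtain ⟨σ₀, hσ₀⟩ : ∃ σ₀ : ℝ, σ₀ = (2 * m + 2 + |mu lam m|) / lam := ⟨_, rfl⟩
  have hmu : 0 ≤ |mu lam m| := abs_nonneg _
  have hσ₀0 : 0 ≤ σ₀ := by rw [hσ₀]; positivity
  have hFser : ∀ s : ℂ, σ₀ < s.re → LSeriesSummable (ff lam m α) s ∧ FF lam m c Λ s = LSeries (ff lam m α) s := by
    intro s hs
    apply FF_series hc hl
    apply hΛs
    have h1 : ((lam : ℂ) * s + mu lam m).re = lam * s.re + mu lam m := by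
      simp
    rw [h1]
    rw [hσ₀, div_lt_iff₀ hl] at hs
    have := neg_abs_le (mu lam m)
    linarith
  have hgr := FF_growth (lam := lam) (m := m) (c := c) hl hΛg
  refine ⟨FF lam m c Λ, FF_diff hΛd, fun s hs => hFser s (by rw [hσ₀]; exact hs), ?_, ?_⟩
  · exact FF_strip hl hσ₀0 hε1 (FF_diff hΛd) hgr hFser hΛfe
  · intro s hs1 hs2
    have g1 := FF_completed (m := m) (c := c) (Λ := Λ) (s := s) hs1
    have g2 := FF_completed (m := m) (c := c) (Λ := Λ) (s := 1 - starRingEnd ℂ s) hs2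
    rw [g1, g2, map_mul, Complex.conj_ofReal, ← hΛc]
    have h3 : starRingEnd ℂ ((lam : ℂ) * (1 - starRingEnd ℂ s) + mu lam m) =
        (((2 * (m : ℝ) + 2 : ℝ)) : ℂ) - ((lam : ℂ) * s + mu lam m) := by
      rw [map_add, map_mul, map_sub, map_one, Complex.conj_conj, Complex.conj_ofReal, Complex.conj_ofReal]
      unfold mu
      push_cast
      ring
    rw [h3, hΛfe]
    have h5 : (ε : ℂ) * ε = 1 := by exact_mod_cast hεε
    linear_combination (-((Real.exp (Real.log c * (mu lam m - 2 * m - 1)) : ℝ) : ℂ) *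
      Λ ((lam : ℂ) * s + mu lam m)) * h5

/-- the exceptional set: the integers near the nodes -/
def nodes (c lam : ℝ) : Set ℕ := {n | 1 ≤ n ∧ ∃ j, nn c lam j = n}

theorem nodes_count {c lam : ℝ} (hc : 0 < c) (hlam : 1 ≤ lam) {x : ℝ} (hx : 0 ≤ x) :
    (({n | n ∈ nodes c lam ∧ (n : ℝ) ≤ x} : Set ℕ).ncard : ℝ) ≤ c * x ^ (1 / lam) := by
  have hl : 0 < lam := by linarith
  set N : ℕ := ⌊2 / Real.pi * c * x ^ (1 / lam)⌋₊ with hN
  have hsub : {n | n ∈ nodes c lam ∧ (n : ℝ) ≤ x} ⊆ (((Finset.Icc 1 N).image (nn c lam) : Finset ℕ) : Set ℕ) := by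
    rintro n ⟨⟨hn1, j, hj⟩, hnx⟩
    rw [Finset.coe_image]
    refine ⟨j, ?_, hj⟩
    have hj1 : 1 ≤ j := by
      rcases Nat.eq_zero_or_pos j with h | h
      · subst h
        rw [nn_zero hlam] at hj
        omega
      · exact h
    rw [Finset.coe_Icc, Set.mem_Icc]
    refine ⟨hj1, ?_⟩
    rw [hN]
    apply Nat.le_floor
    have h1 : (xx j / c) ^ lam ≤ nn c lam j := Nat.le_ceil _
    have h2 : (xx j / c) ^ lam ≤ x := by
      refine h1.trans ?_
      rw [hj]; exact hnx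
    have hxj : 0 ≤ xx j / c := div_nonneg (xx_nonneg j) hc.le
    have h3 : xx j / c ≤ x ^ (1 / lam) := by
      calc xx j / c = ((xx j / c) ^ lam) ^ (1 / lam) := by
            rw [← Real.rpow_mul hxj, mul_one_div_cancel hl.ne', Real.rpow_one]
        _ ≤ x ^ (1 / lam) := Real.rpow_le_rpow (Real.rpow_nonneg hxj _) h2 (by positivity)
    rw [div_le_iff₀ hc] at h3
    unfold xx at h3
    have hpi := Real.pi_pos
    calc (j : ℝ) = 2 / Real.pi * (Real.pi / 2 * j) := by field_simp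
      _ ≤ 2 / Real.pi * (x ^ (1 / lam) * c) := by gcongr
      _ = _ := by ring
  have h1 := Set.ncard_le_ncard hsub (Finset.finite_toSet _)
  rw [Set.ncard_coe_finset] at h1
  have h2 : ((Finset.Icc 1 N).image (nn c lam)).card ≤ N := by
    refine Finset.card_image_le.trans ?_
    simp
  have hx' : 0 ≤ x ^ (1 / lam) := Real.rpow_nonneg hx _
  have hpi := Real.pi_gt_three
  have h3 : (N : ℝ) ≤ 2 / Real.pi * c * x ^ (1 / lam) := by
    rw [hN]; exact Nat.floor_le (by positivity)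
  have h4 : 2 / Real.pi ≤ 1 := by
    rw [div_le_one (by linarith)]; linarith
  have h5 : (({n | n ∈ nodes c lam ∧ (n : ℝ) ≤ x} : Set ℕ).ncard : ℝ) ≤ N := by
    exact_mod_cast h1.trans h2
  calc (({n | n ∈ nodes c lam ∧ (n : ℝ) ≤ x} : Set ℕ).ncard : ℝ) ≤ 2 / Real.pi * c * x ^ (1 / lam) := h5.trans h3
    _ ≤ 1 * c * x ^ (1 / lam) := by gcongr
    _ = _ := by ring

open Classical in
/-- Real version: any real sequence of growth `n^K` is, off the nodes, the coefficient sequence of an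
entire Dirichlet series with the functional equation. -/
theorem real_version : ∃ m₀ : ℕ, ∀ (lam K : ℝ), 1 ≤ lam → ∀ m : ℕ, m₀ ≤ m → lam ≤ m → lam * (K + 1 / 2) + 1 < m →
    ∀ c : ℝ, 0 < c → c ≤ 1 / 100 → ∀ ε : ℝ, (ε = 1 ∨ ε = -1) →
    ∀ (v : ℕ → ℝ) (C : ℝ), (∀ n, 1 ≤ n → |v n| ≤ C * (n : ℝ) ^ K) →
    ∃ (a : ℕ → ℝ) (F : ℂ → ℂ), (∀ n, 1 ≤ n → n ∉ nodes c lam → a n = v n) ∧ Differentiable ℂ F ∧
    (∀ s : ℂ, (2 * m + 2 + |mu lam m|) / lam < s.re →
      LSeriesSummable (fun n => ((a n : ℝ) : ℂ)) s ∧ F s = LSeries (fun n => ((a n : ℝ) : ℂ)) s) ∧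
    (∀ σ₁ σ₂ : ℝ, ∃ M C : ℝ, ∀ s : ℂ, σ₁ ≤ s.re → s.re ≤ σ₂ → ‖F s‖ ≤ C * (1 + |s.im|) ^ M) ∧
    (∀ s : ℂ, (∀ n : ℕ, (lam : ℂ) * s + mu lam m ≠ -(n : ℂ)) →
      (∀ n : ℕ, (lam : ℂ) * (1 - starRingEnd ℂ s) + mu lam m ≠ -(n : ℂ)) →
      F s * ((Real.exp (-(lam * Real.log c)) : ℝ) : ℂ) ^ s * Gamma ((lam : ℂ) * s + mu lam m) =
        ε * starRingEnd ℂ (F (1 - starRingEnd ℂ s) *
          ((Real.exp (-(lam * Real.log c)) : ℝ) : ℂ) ^ (1 - starRingEnd ℂ s) *
          Gamma ((lam : ℂ) * (1 - starRingEnd ℂ s) + mu lam m))) := by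
  obtain ⟨m₀, hm₀⟩ := exists_relation
  refine ⟨max m₀ 1, fun lam K hlam m hm hmlam hmK c hc hc1 ε hε v C hv => ?_⟩
  have hl : 0 < lam := by linarith
  have hm1 : 1 ≤ m := le_trans (le_max_right _ _) hm
  obtain ⟨σ, hσd⟩ : ∃ σ : ℝ, σ = (-1) ^ (m + 1) * ε := ⟨_, rfl⟩
  have hσ : σ = 1 ∨ σ = -1 := by
    rcases neg_one_pow_eq_or ℝ (m + 1) with h | h <;> rcases hε with h' | h' <;> rw [hσd, h, h'] <;> norm_num
  have hεσ : ε = (-1) ^ (m + 1) * σ := by
    rcases neg_one_pow_eq_or ℝ (m + 1) with h | h <;> rw [hσd, h] <;> ring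
  obtain ⟨w, hw⟩ : ∃ w : ℕ → ℝ, w = fun n => if (∃ j, nn c lam j = n) then 0 else v n * (n : ℝ) ^ (-(kap lam m)) :=
    ⟨_, rfl⟩
  have hC0 : 0 ≤ C := by
    have := hv 1 le_rfl
    rw [Nat.cast_one, Real.one_rpow, mul_one] at this
    exact (abs_nonneg _).trans this
  have hws : Summable (fun n => |w n| * (1 + uu c lam n)) := by
    have hexp : K - kap lam m + 1 / lam < -1 := by
      unfold kap
      have h1 : (m : ℝ) / lam > K + 1 / 2 + 1 / lam := by
        rw [gt_iff_lt, lt_div_iff₀ hl, add_mul, one_div_mul_cancel hl.ne']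
        linarith
      linarith
    have hS : Summable (fun n : ℕ => (n : ℝ) ^ (K - kap lam m + 1 / lam)) := Real.summable_nat_rpow.2 hexp
    refine Summable.of_nonneg_of_le (fun n => mul_nonneg (abs_nonneg _) ?_) (fun n => ?_)
      (hS.mul_left (C * (1 + c)))
    · have : 0 ≤ uu c lam n := by unfold uu; positivity
      linarith
    · rcases Nat.eq_zero_or_pos n with h0 | h0
      · have : w n = 0 := by
          rw [hw]
          simp only
          rw [if_pos ⟨0, by rw [nn_zero hlam, h0]⟩]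
        rw [this, abs_zero, zero_mul]
        positivity
      · have hn : (0 : ℝ) < n := by exact_mod_cast h0
        have hn1 : (1 : ℝ) ≤ n := by exact_mod_cast h0
        have h1 : |w n| ≤ C * (n : ℝ) ^ K * (n : ℝ) ^ (-(kap lam m)) := by
          rw [hw]
          simp only
          split_ifs with h
          · rw [abs_zero]; positivity
          · rw [abs_mul, abs_of_pos (Real.rpow_pos_of_pos hn _)]
            exact mul_le_mul_of_nonneg_right (hv n h0) (Real.rpow_nonneg hn.le _)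
        have h2 : 1 + uu c lam n ≤ (1 + c) * (n : ℝ) ^ (1 / lam) := by
          unfold uu
          have : 1 ≤ (n : ℝ) ^ (1 / lam) := Real.one_le_rpow hn1 (by positivity)
          linarith
        have h3 : 0 ≤ 1 + uu c lam n := by
          have : 0 ≤ uu c lam n := by unfold uu; positivity
          linarith
        calc |w n| * (1 + uu c lam n) ≤ (C * (n : ℝ) ^ K * (n : ℝ) ^ (-(kap lam m))) * ((1 + c) * (n : ℝ) ^ (1 / lam)) := by
              gcongr
          _ = C * (1 + c) * ((n : ℝ) ^ K * (n : ℝ) ^ (-(kap lam m)) * (n : ℝ) ^ (1 / lam)) := by ring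
          _ = C * (1 + c) * (n : ℝ) ^ (K - kap lam m + 1 / lam) := by
              rw [← Real.rpow_add hn, ← Real.rpow_add hn]
              congr 2
  obtain ⟨α, hαs, hαv, hαr⟩ := hm₀ m (le_trans (le_max_left _ _) hm) lam hlam c hc hc1 σ hσ w hws
  obtain ⟨F, hF1, hF2, hF3, hF4⟩ := package hlam hm1 hmlam hc hσ hαs hαr hεσ
  refine ⟨aa lam m α, F, fun n hn hnS => ?_, hF1, hF2, hF3, hF4⟩
  have hnot : ¬ ∃ j, nn c lam j = n := fun h => hnS ⟨hn, h⟩
  have h1 : α n = w n := hαv n (fun j hj => hnot ⟨j, hj⟩)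
  have hn0 : (0 : ℝ) < n := by exact_mod_cast hn
  unfold aa
  rw [h1, hw]
  simp only
  rw [if_neg hnot, mul_assoc, ← Real.rpow_add hn0, neg_add_cancel, Real.rpow_zero, mul_one]

end Pool.Agent.Y532.SC
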