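import Pool.Agent.Y245.SC.Stm

/-!
# The function `Z` is periodic (project SC, part ZPER)
-/

set_option autoImplicit false

open Complex MeasureTheory Metric Set Filter Topology ComplexConjugate

namespace Pool.Agent.Y532.SC

open Pool.Agent.Y245.SC

lemma exp_mem {ℓ : ℝ} {ω : ℂ} (h : ω.re < ℓ) : exp ω ∈ ball (0 : ℂ) (Real.exp ℓ) := by
  rw [mem_ball_zero_iff, Complex.norm_exp]
  exact Real.exp_lt_exp.2 h

lemma fc_diff {φ : ℂ → ℂ} {ℓ : ℝ} (hφ : DifferentiableOn ℂ φ (ball 0 (Real.exp ℓ))) :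
    DifferentiableOn ℂ (Fc φ) (Strip ℓ) := by
  intro ω hω
  have h1 : DifferentiableAt ℂ (fun z => φ (exp (-z))) (conj ω) := by
    have h2 : exp (-(conj ω)) ∈ ball (0 : ℂ) (Real.exp ℓ) := exp_mem (by
      rw [neg_re, conj_re]
      linarith [hω.1])
    have h3 := hφ.differentiableAt (isOpen_ball.mem_nhds h2)
    exact h3.comp (conj ω) (by fun_prop)
  have h4 := (differentiableAt_conj_conj_iff (f := fun z => φ (exp (-z))) (x := ω)).2 h1
  exact h4.differentiableWithinAt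

lemma ker_diff {φ : ℂ → ℂ} {a ℓ : ℝ} (hkap : Differentiable ℂ (kap a))
    (hφ : DifferentiableOn ℂ φ (ball 0 (Real.exp ℓ))) (ω0 : ℂ) :
    DifferentiableOn ℂ (fun ω => ker a φ ω ω0 (Fc φ ω)) (Strip ℓ) := by
  have h1 := fc_diff hφ
  have h2 : DifferentiableOn ℂ (fun ω => φ (exp ω)) (Strip ℓ) :=
    hφ.comp differentiable_exp.differentiableOn (fun ω hω => exp_mem hω.2)
  have h3 : DifferentiableOn ℂ (fun ω => deriv φ (exp ω)) (Strip ℓ) :=
    (hφ.deriv isOpen_ball).comp differentiable_exp.differentiableOn (fun ω hω => exp_mem hω.2)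
  exact ((h1.pow 2).mul (hkap.comp_differentiableOn (h1.mul (h2.sub_const (φ (exp ω0)))))).mul
    (h3.mul differentiable_exp.differentiableOn)

lemma strip_open (ℓ : ℝ) : IsOpen (Strip ℓ) :=
  (isOpen_lt continuous_const continuous_re).inter (isOpen_lt continuous_re continuous_const)

lemma strip_convex (ℓ : ℝ) : Convex ℝ (Strip ℓ) :=
  (convex_halfSpace_re_gt _).inter (convex_halfSpace_re_lt _)

lemma exp_per (ω : ℂ) : exp (ω + 2 * Real.pi * I) = exp ω := by
  rw [exp_add, exp_two_pi_mul_I, mul_one]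

lemma fc_per (φ : ℂ → ℂ) (ω : ℂ) : Fc φ (ω + 2 * Real.pi * I) = Fc φ ω := by
  unfold Fc
  have h1 : -(conj (ω + 2 * Real.pi * I)) = -(conj ω) + 2 * Real.pi * I := by
    rw [map_add, map_mul, map_mul, conj_I, conj_ofReal]
    have : conj (2 : ℂ) = 2 := Complex.conj_ofNat 2
    rw [this]
    ring
  rw [h1, exp_per]

lemma fc_circle (φ : ℂ → ℂ) (θ : ℝ) : Fc φ (θ * I) = conj (φ (exp (θ * I))) := by
  unfold Fc
  have h1 : -(conj ((θ : ℂ) * I)) = θ * I := by
    rw [map_mul, conj_I, conj_ofReal]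
    ring
  rw [h1]

/-- the integral over one period -/
lemma seg_period {a : ℝ} {φ : ℂ → ℂ} (hI : IOne a φ) (ω0 : ℂ) :
    seg (fun ω => Pool.Agent.Y245.SC.ker a φ ω ω0 (Fc φ ω)) 0 (2 * Real.pi * I) = 0 := by
  have h0 := hI (φ (exp ω0))
  unfold circleIntegral at h0
  obtain ⟨g, hg⟩ : ∃ g : ℝ → ℂ, g =
      fun t : ℝ => Pool.Agent.Y245.SC.ker a φ (t * I) ω0 (Fc φ (t * I)) * I := ⟨_, rfl⟩
  have h1 : ∀ θ : ℝ, deriv (circleMap 0 1) θ • (conj (φ (circleMap 0 1 θ)) ^ 2 *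
      kap a (conj (φ (circleMap 0 1 θ)) * (φ (circleMap 0 1 θ) - φ (exp ω0))) *
        deriv φ (circleMap 0 1 θ)) = g θ := by
    intro θ
    rw [deriv_circleMap, hg]
    have h2 : circleMap 0 1 θ = exp (θ * I) := by
      simp [circleMap]
    simp only [h2, smul_eq_mul]
    unfold Pool.Agent.Y245.SC.ker
    rw [fc_circle]
    ring
  simp only [h1] at h0
  unfold seg
  have h3 : ∫ t in (0 : ℝ)..1, g (2 * Real.pi * t) = 0 := by
    rw [intervalIntegral.integral_comp_mul_left g (by positivity : (2 * Real.pi : ℝ) ≠ 0)]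
    rw [mul_zero, mul_one, h0, smul_zero]
  have h4 : ∀ t : ℝ, Pool.Agent.Y245.SC.ker a φ (0 + t * (2 * Real.pi * I - 0)) ω0
      (Fc φ (0 + t * (2 * Real.pi * I - 0))) * (2 * Real.pi * I - 0) =
      (2 * Real.pi : ℂ) * g (2 * Real.pi * t) := by
    intro t
    have h5 : (0 : ℂ) + t * (2 * Real.pi * I - 0) = ((2 * Real.pi * t : ℝ) : ℂ) * I := by
      push_cast
      ring
    rw [h5, hg]
    ring
  simp only [h4]
  rw [intervalIntegral.integral_const_mul, h3, mul_zero]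

theorem zper : S_ZPER := by
  intro hK hS φ a ℓ ha hℓ hφ hI ω hω
  have hkap := (hK a ha.le).1
  set K : ℂ → ℂ := fun x => ker a φ x ω (Fc φ x) with hKdef
  have hKd : DifferentiableOn ℂ K (Strip ℓ) := ker_diff hkap hφ ω
  have hmem0 : (0 : ℂ) ∈ Strip ℓ := by
    constructor
    · change -ℓ < (0 : ℂ).re
      rw [zero_re]; linarith
    · change (0 : ℂ).re < ℓ
      rw [zero_re]; exact hℓ
  have hre : (2 * Real.pi * I : ℂ).re = 0 := by simp
  have hmem1 : (2 * Real.pi * I : ℂ) ∈ Strip ℓ := by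
    constructor
    · change -ℓ < (2 * Real.pi * I : ℂ).re
      rw [hre]; linarith
    · change (2 * Real.pi * I : ℂ).re < ℓ
      rw [hre]; exact hℓ
  have hmem2 : ω + 2 * Real.pi * I ∈ Strip ℓ := by
    constructor
    · change -ℓ < (ω + 2 * Real.pi * I).re
      rw [add_re, hre, add_zero]; exact hω.1
    · change (ω + 2 * Real.pi * I).re < ℓ
      rw [add_re, hre, add_zero]; exact hω.2
  have hadd := (hS (Strip ℓ) K (strip_open ℓ) (strip_convex ℓ) hKd).1 0 hmem0 _ hmem1 _ hmem2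
  have hker : ∀ x : ℂ, ker a φ x (ω + 2 * Real.pi * I) (Fc φ x) = K x := by
    intro x
    simp only [hKdef, Pool.Agent.Y245.SC.ker, exp_per]
  have hKper : ∀ x : ℂ, K (x + 2 * Real.pi * I) = K x := by
    intro x
    simp only [hKdef, Pool.Agent.Y245.SC.ker, exp_per, fc_per]
  have hshift : seg K (2 * Real.pi * I) (ω + 2 * Real.pi * I) = seg K 0 ω := by
    unfold seg
    refine intervalIntegral.integral_congr fun t _ => ?_
    have h1 : (2 * Real.pi * I : ℂ) + t * (ω + 2 * Real.pi * I - 2 * Real.pi * I) =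
        (0 + t * (ω - 0)) + 2 * Real.pi * I := by ring
    rw [h1, hKper]
    ring
  have hZ : Zf a φ (ω + 2 * Real.pi * I) =
      Fc φ (ω + 2 * Real.pi * I) - seg K 0 (ω + 2 * Real.pi * I) := by
    unfold Zf
    simp only [hker]
  rw [hZ, fc_per, ← hadd, hshift, seg_period hI ω, zero_add]
  rfl

end Pool.Agent.Y532.SC
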